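import Mathlib

/-! Generalised central trinomial coefficients `T_n(b,c) = [x^n](x^2+bx+c)^n`. -/

namespace Pool.Agent.Q33.Tri

open Finset

/-- the coefficient `C(n,2j) C(2j,j)` -/
def t (n j : ℕ) : ℤ := (n.choose (2 * j) : ℤ) * ((2 * j).choose j : ℤ)

theorem t_eq_zero {n j : ℕ} (h : n < 2 * j) : t n j = 0 := by
  unfold t
  rw [Nat.choose_eq_zero_of_lt h]
  simp

@[simp] theorem t_zero (n : ℕ) : t n 0 = 1 := by simp [t]

theorem t_left (n j : ℕ) : t (n + 1) j * ((n : ℤ) + 1 - 2 * j) = t n j * ((n : ℤ) + 1) := by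
  rcases Nat.lt_or_ge (n + 1) (2 * j) with h | h
  · rw [t_eq_zero h, t_eq_zero (by omega)]
    simp
  · have h1 := Nat.choose_mul_succ_eq n (2 * j)
    have h2 : ((n.choose (2 * j) : ℤ)) * ((n : ℤ) + 1)
        = ((n + 1).choose (2 * j) : ℤ) * ((n : ℤ) + 1 - 2 * j) := by
      have h3 : (((n + 1 - 2 * j : ℕ)) : ℤ) = (n : ℤ) + 1 - 2 * j := by
        push_cast [Nat.cast_sub h]
        ring
      rw [← h3]
      exact_mod_cast h1
    unfold t
    linear_combination -((2 * j).choose j : ℤ) * h2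

theorem t_right (n j : ℕ) :
    ((j : ℤ) + 1) ^ 2 * t n (j + 1) = t n j * (((n : ℤ) - 2 * j) * ((n : ℤ) - 2 * j - 1)) := by
  rcases Nat.lt_or_ge n (2 * j) with h | h
  · rw [t_eq_zero h, t_eq_zero (by omega)]
    simp
  · have a1 := Nat.choose_succ_right_eq n (2 * j)
    have a2 := Nat.choose_succ_right_eq n (2 * j + 1)
    have a3 := Nat.succ_mul_centralBinom_succ j
    rw [Nat.centralBinom_eq_two_mul_choose, Nat.centralBinom_eq_two_mul_choose] at a3
    have b1 : ((n.choose (2 * j + 1) : ℤ)) * (2 * j + 1) = (n.choose (2 * j) : ℤ) * ((n : ℤ) - 2 * j) := by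
      have h3 : (((n - 2 * j : ℕ)) : ℤ) = (n : ℤ) - 2 * j := by
        push_cast [Nat.cast_sub h]
        ring
      rw [← h3]
      exact_mod_cast a1
    have b2 : ((n.choose (2 * j + 2) : ℤ)) * (2 * j + 2)
        = (n.choose (2 * j + 1) : ℤ) * ((n : ℤ) - 2 * j - 1) := by
      rcases Nat.lt_or_ge n (2 * j + 1) with h' | h'
      · have : n = 2 * j := by omega
        rw [Nat.choose_eq_zero_of_lt (show n < 2 * j + 2 by omega),
          Nat.choose_eq_zero_of_lt (show n < 2 * j + 1 by omega)]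
        simp
      · have h3 : (((n - (2 * j + 1) : ℕ)) : ℤ) = (n : ℤ) - 2 * j - 1 := by
          push_cast [Nat.cast_sub h']
          ring
        rw [← h3]
        have a2' : n.choose (2 * j + 2) * (2 * j + 2) = n.choose (2 * j + 1) * (n - (2 * j + 1)) := a2
        exact_mod_cast a2'
    have b3 : ((j : ℤ) + 1) * ((2 * (j + 1)).choose (j + 1) : ℤ)
        = 2 * (2 * j + 1) * ((2 * j).choose j : ℤ) := by
      exact_mod_cast a3
    unfold t
    have e : (2 * (j + 1)) = 2 * j + 2 := by ring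
    rw [e] at b3 ⊢
    linear_combination ((j : ℤ) + 1) * (n.choose (2 * j + 2) : ℤ) * b3
      + (2 * j + 1) * ((2 * j).choose j : ℤ) * b2
      + ((2 * j).choose j : ℤ) * ((n : ℤ) - 2 * j - 1) * b1

theorem t_rec (m j : ℕ) :
    ((m : ℤ) + 2) * t (m + 2) (j + 1) + ((m : ℤ) + 1) * t m (j + 1)
      = (2 * (m : ℤ) + 3) * t (m + 1) (j + 1) + 4 * ((m : ℤ) + 1) * t m j := by
  have r0 := t_right m j
  have r1 := t_right (m + 1) j
  have r2 := t_right (m + 2) j
  have l0 := t_left m j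
  have l1 := t_left (m + 1) j
  push_cast at r1 r2 l1
  have hj : ((j : ℤ) + 1) ^ 2 ≠ 0 := by positivity
  apply mul_left_cancel₀ hj
  linear_combination ((m : ℤ) + 2) * r2 + ((m : ℤ) + 1) * r0 - (2 * (m : ℤ) + 3) * r1
    + ((m : ℤ) + 2) * ((m : ℤ) + 1 - 2 * j) * l1
    + (((m : ℤ) + 2) ^ 2 - (2 * (m : ℤ) + 3) * ((m : ℤ) - 2 * j)) * l0

/-- the generalised central trinomial coefficient `T_n(b,c)` -/
def T (b c : ℤ) (n : ℕ) : ℤ := ∑ j ∈ range (n / 2 + 1), t n j * b ^ (n - 2 * j) * c ^ j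

theorem T_eq (b c : ℤ) {n N : ℕ} (h : n / 2 + 1 ≤ N) :
    T b c n = ∑ j ∈ range N, t n j * b ^ (n - 2 * j) * c ^ j := by
  unfold T
  apply Finset.sum_subset (Finset.range_subset_range.2 h)
  intro j _ hj
  rw [Finset.mem_range, not_lt] at hj
  rw [t_eq_zero (by omega)]
  simp

theorem T_rec (b c : ℤ) (m : ℕ) :
    ((m : ℤ) + 2) * T b c (m + 2)
      = (2 * (m : ℤ) + 3) * b * T b c (m + 1) - ((m : ℤ) + 1) * (b ^ 2 - 4 * c) * T b c m := by
  rw [T_eq b c (show (m + 2) / 2 + 1 ≤ m + 3 by omega), T_eq b c (show (m + 1) / 2 + 1 ≤ m + 3 by omega)]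
  have e0 : ∀ j, t (m + 1) j * b ^ (m + 1 - 2 * j) * c ^ j * b = t (m + 1) j * b ^ (m + 2 - 2 * j) * c ^ j := by
    intro j
    rcases Nat.lt_or_ge (m + 1) (2 * j) with h | h
    · rw [t_eq_zero h]
      simp
    · rw [show m + 2 - 2 * j = (m + 1 - 2 * j) + 1 by omega, pow_succ]
      ring
  have e1 : ∀ j, t m j * b ^ (m - 2 * j) * c ^ j * b ^ 2 = t m j * b ^ (m + 2 - 2 * j) * c ^ j := by
    intro j
    rcases Nat.lt_or_ge m (2 * j) with h | h
    · rw [t_eq_zero h]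
      simp
    · rw [show m + 2 - 2 * j = (m - 2 * j) + 2 by omega, pow_add]
      ring
  have s1 : (2 * (m : ℤ) + 3) * b * ∑ j ∈ range (m + 3), t (m + 1) j * b ^ (m + 1 - 2 * j) * c ^ j
      = ∑ j ∈ range (m + 3), (2 * (m : ℤ) + 3) * t (m + 1) j * b ^ (m + 2 - 2 * j) * c ^ j := by
    rw [Finset.mul_sum]
    refine Finset.sum_congr rfl fun j _ => ?_
    linear_combination (2 * (m : ℤ) + 3) * e0 j
  have s2 : ((m : ℤ) + 1) * b ^ 2 * T b c m
      = ∑ j ∈ range (m + 3), ((m : ℤ) + 1) * t m j * b ^ (m + 2 - 2 * j) * c ^ j := by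
    rw [T_eq b c (show m / 2 + 1 ≤ m + 3 by omega), Finset.mul_sum]
    refine Finset.sum_congr rfl fun j _ => ?_
    linear_combination ((m : ℤ) + 1) * e1 j
  have s3 : ((m : ℤ) + 1) * (4 * c) * T b c m
      = ∑ j ∈ range (m + 2), 4 * ((m : ℤ) + 1) * t m j * b ^ (m + 2 - 2 * (j + 1)) * c ^ (j + 1) := by
    rw [T_eq b c (show m / 2 + 1 ≤ m + 2 by omega), Finset.mul_sum]
    refine Finset.sum_congr rfl fun j _ => ?_
    rw [show m + 2 - 2 * (j + 1) = m - 2 * j by omega, pow_succ]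
    ring
  have s4 : ((m : ℤ) + 1) * (b ^ 2 - 4 * c) * T b c m
      = ((m : ℤ) + 1) * b ^ 2 * T b c m - ((m : ℤ) + 1) * (4 * c) * T b c m := by ring
  rw [s1, s4, s2, s3, Finset.mul_sum, Finset.sum_range_succ' _ (m + 2), Finset.sum_range_succ' _ (m + 2),
    Finset.sum_range_succ' _ (m + 2)]
  have s5 : ∑ k ∈ range (m + 2), ((m : ℤ) + 2) * (t (m + 2) (k + 1) * b ^ (m + 2 - 2 * (k + 1)) * c ^ (k + 1))
      = ∑ k ∈ range (m + 2), (2 * (m : ℤ) + 3) * t (m + 1) (k + 1) * b ^ (m + 2 - 2 * (k + 1)) * c ^ (k + 1)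
        - (∑ k ∈ range (m + 2), ((m : ℤ) + 1) * t m (k + 1) * b ^ (m + 2 - 2 * (k + 1)) * c ^ (k + 1)
        - ∑ k ∈ range (m + 2), 4 * ((m : ℤ) + 1) * t m k * b ^ (m + 2 - 2 * (k + 1)) * c ^ (k + 1)) := by
    rw [← Finset.sum_sub_distrib, ← Finset.sum_sub_distrib]
    refine Finset.sum_congr rfl fun k _ => ?_
    linear_combination b ^ (m + 2 - 2 * (k + 1)) * c ^ (k + 1) * t_rec m k
  rw [s5]
  simp only [t_zero, Nat.mul_zero, Nat.sub_zero, pow_zero]
  ring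

theorem T_zero (b c : ℤ) : T b c 0 = 1 := by simp [T]

theorem T_one (b c : ℤ) : T b c 1 = b := by simp [T]

/-- recurrence, valid for all `n` with `n` times the predecessor -/
theorem T_rec' (b c : ℤ) (n : ℕ) :
    ((n : ℤ) + 1) * T b c (n + 1)
      = (2 * (n : ℤ) + 1) * b * T b c n - (n : ℤ) * (b ^ 2 - 4 * c) * T b c (n - 1) := by
  rcases n with _ | m
  · simp [T_zero, T_one]
  · have := T_rec b c m
    push_cast
    linear_combination this

/-- `T_n(b,c) ≡ b^n` modulo `2c`. -/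
theorem T_mod (b c : ℤ) (n : ℕ) : ∃ R, T b c n = b ^ n + 2 * c * R := by
  unfold T
  rw [Finset.sum_range_succ']
  refine ⟨∑ k ∈ range (n / 2), (n.choose (2 * (k + 1)) : ℤ) * ((2 * k + 1).choose k : ℤ)
    * b ^ (n - 2 * (k + 1)) * c ^ k, ?_⟩
  rw [Finset.mul_sum, t_zero]
  simp only [Nat.mul_zero, Nat.sub_zero, pow_zero, mul_one, one_mul]
  rw [add_comm]
  congr 1
  refine Finset.sum_congr rfl fun k _ => ?_
  unfold t
  have h : (2 * (k + 1)).choose (k + 1) = 2 * (2 * k + 1).choose k := by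
    have h1 := Nat.choose_succ_succ (2 * k + 1) k
    have h2 : (2 * k + 1).choose (k + 1) = (2 * k + 1).choose k := by
      rw [← Nat.choose_symm_of_eq_add (show 2 * k + 1 = k + (k + 1) by ring)]
    rw [show 2 * (k + 1) = (2 * k + 1) + 1 by ring]
    rw [Nat.succ_eq_add_one, Nat.succ_eq_add_one] at h1
    rw [h1, h2]
    ring
  rw [h]
  push_cast
  rw [pow_succ]
  ring

/-- `b` divides `T_n(b,c)` for odd `n`. -/
theorem dvd_T_of_odd (b c : ℤ) {n : ℕ} (hn : n % 2 = 1) : b ∣ T b c n := by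
  unfold T
  apply Finset.dvd_sum
  intro j hj
  rw [Finset.mem_range] at hj
  have h : n - 2 * j = (n - 2 * j - 1) + 1 := by omega
  rw [h, pow_succ]
  exact ⟨t n j * b ^ (n - 2 * j - 1) * c ^ j, by ring⟩

/-- congruence of `T` in its arguments -/
theorem T_congr {m b b' c c' : ℤ} (hb : b ≡ b' [ZMOD m]) (hc : c ≡ c' [ZMOD m]) (n : ℕ) :
    T b c n ≡ T b' c' n [ZMOD m] := by
  unfold T
  apply Int.ModEq.sum
  intro j _
  exact ((Int.ModEq.refl _).mul (hb.pow _)).mul (hc.pow _)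

/-- the sum in question -/
def L (b c : ℤ) (n : ℕ) : ℤ :=
  ∑ j ∈ range n, (8 * c * j + 4 * c + b) * T b (c ^ 2) j ^ 2 * (b - 2 * c) ^ (2 * (n - 1 - j))

theorem L_succ (b c : ℤ) (n : ℕ) :
    L b c (n + 1) = (b - 2 * c) ^ 2 * L b c n + (8 * c * n + 4 * c + b) * T b (c ^ 2) n ^ 2 := by
  unfold L
  rw [Finset.sum_range_succ, Finset.mul_sum]
  congr 1
  · refine Finset.sum_congr rfl fun j hj => ?_
    rw [Finset.mem_range] at hj
    rw [show 2 * (n + 1 - 1 - j) = 2 * (n - 1 - j) + 2 by omega, pow_add]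
    ring
  · rw [show n + 1 - 1 - n = 0 by omega]
    simp

theorem L_closed (b c : ℤ) (n : ℕ) :
    2 * b * c * L b c n = n * (n * b * ((b + 2 * c) * T b (c ^ 2) (n - 1) - T b (c ^ 2) n) ^ 2
      + 2 * c * (b + 2 * c) * T b (c ^ 2) (n - 1) * T b (c ^ 2) n) := by
  induction n with
  | zero => simp [L]
  | succ n ih =>
    rw [L_succ, Nat.add_sub_cancel]
    have hr := T_rec' b (c ^ 2) n
    push_cast
    set X := T b (c ^ 2) n
    set Y := T b (c ^ 2) (n - 1)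
    set Z := T b (c ^ 2) (n + 1)
    have hZ : ((n : ℤ) + 1) * Z = (2 * (n : ℤ) + 1) * b * X - (n : ℤ) * (b ^ 2 - 4 * c ^ 2) * Y := hr
    have e : ((n : ℤ) + 1) * (((n : ℤ) + 1) * b * ((b + 2 * c) * X - Z) ^ 2
        + 2 * c * (b + 2 * c) * X * Z)
        = b * (((n : ℤ) + 1) * (b + 2 * c) * X - ((n : ℤ) + 1) * Z) ^ 2
          + 2 * c * (b + 2 * c) * X * (((n : ℤ) + 1) * Z) := by ring
    rw [e, hZ]
    linear_combination (b - 2 * c) ^ 2 * ih

end Pool.Agent.Q33.Tri
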